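import Pool.Agent.Lib.helper29.CXQ

set_option autoImplicit false

namespace Pool.Agent.H.MP_2ca8f5_lc
open Pool.Agent.Lib.CX Pool.Agent.Lib.helper29.CXQ

abbrev Job := ℚ × ℚ × ℚ

def InJ (T : List ℚ) (x y : ℕ) (j : Job) : Prop := T.getD x 0 ≤ j.1 + j.2.2 ∧ j.2.1 ≤ T.getD y 0

def Gap (T : List ℚ) (V : List ℕ) (j : Job) (u : ℕ × ℕ) : Prop :=
  u.1 < u.2 ∧ (∀ w ∈ V, w ≤ u.1 ∨ u.2 ≤ w) ∧ T.getD u.1 0 < j.2.1 ∧ j.1 + j.2.2 < T.getD u.2 0 ∧
    T.getD u.1 0 + j.2.2 < T.getD u.2 0

instance (T : List ℚ) (x y : ℕ) (j : Job) : Decidable (InJ T x y j) := by unfold InJ; infer_instance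
instance (T : List ℚ) (V : List ℕ) (j : Job) (u : ℕ × ℕ) : Decidable (Gap T V j u) := by
  unfold Gap; infer_instance

def Good (T : List ℚ) (J : List Job) (x y : ℕ) (V : List ℕ) : Prop :=
  V.Nodup ∧ (∀ w ∈ V, x ≤ w ∧ w ≤ y) ∧ x ∈ V ∧ y ∈ V ∧
    ∀ j ∈ J, InJ T x y j → ∃ u ∈ V, ∃ u' ∈ V, Gap T V j (u, u')

def best (l : List (List ℕ)) : List ℕ := (l.find? fun a => l.all fun b => b.length ≤ a.length).getD []

lemma best_mem (l : List (List ℕ)) : best l = [] ∨ best l ∈ l := by
  unfold best
  cases h : l.find? _ with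
  | none => simp
  | some a => exact Or.inr (List.mem_of_find?_eq_some h)

lemma le_best {l : List (List ℕ)} {b : List ℕ} (hb : b ∈ l) : b.length ≤ (best l).length := by
  unfold best
  cases h : l.find? _ with
  | none =>
    obtain ⟨a, h1, h2⟩ := l.toFinset.exists_max_image List.length ⟨b, by simpa using hb⟩
    exact absurd (by simpa using h2) (List.find?_eq_none.1 h a (by simpa using h1))
  | some a => simpa using (by simpa using List.find?_some h : ∀ x ∈ l, x.length ≤ a.length) b hb

def get (t : List (List (List ℕ))) (x y : ℕ) : List ℕ := (t.getD x []).getD y []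

def cand (T : List ℚ) (J : List Job) (t : List (List (List ℕ))) (x y : ℕ) (u : ℕ × ℕ) : List ℕ :=
  if x ≤ u.1 ∧ u.1 < u.2 ∧ u.2 ≤ y ∧ (∀ j ∈ J, InJ T x y j → T.getD u.1 0 + j.2.2 < T.getD u.2 0) ∧
    get t x u.1 ≠ [] ∧ get t u.2 y ≠ [] then get t x u.1 ++ get t u.2 y else []

def cell (T : List ℚ) (J : List Job) (t : List (List (List ℕ))) (x y : ℕ) : List ℕ :=
  best ((if x = y ∧ ∀ j ∈ J, ¬ InJ T x y j then [x] else []) ::
    (List.range T.length ×ˢ List.range T.length).map (cand T J t x y))

def step (T : List ℚ) (J : List Job) (t : List (List (List ℕ))) : List (List (List ℕ)) :=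
  (List.range T.length).map fun x => (List.range T.length).map fun y => cell T J t x y

variable {T : List ℚ} {J : List Job} {t : List (List (List ℕ))}

lemma get_step (x y : ℕ) :
    get (step T J t) x y = if x < T.length ∧ y < T.length then cell T J t x y else [] := by
  unfold get step
  by_cases hx : x < T.length <;> by_cases hy : y < T.length <;> simp [hx, hy]

lemma cell_ok (h : ∀ x y, get t x y = [] ∨ Good T J x y (get t x y)) (x y : ℕ) :
    cell T J t x y = [] ∨ Good T J x y (cell T J t x y) := by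
  rcases best_mem _ with h1 | h1
  · exact Or.inl h1
  change cell T J t x y ∈ _ at h1
  generalize cell T J t x y = V at *
  rcases List.mem_cons.1 h1 with rfl | h1
  · split_ifs with h2
    · obtain ⟨rfl, h2⟩ := h2
      exact Or.inr ⟨by simp, by simp, by simp, by simp, fun j hj h3 => absurd h3 (h2 j hj)⟩
    · exact Or.inl rfl
  obtain ⟨⟨u, u'⟩, -, rfl⟩ := List.mem_map.1 h1
  unfold cand
  split_ifs with h2
  swap
  · exact Or.inl rfl
  obtain ⟨a1, a2, a3, a4, a5, a6⟩ := h2
  obtain ⟨b1, b2, b3, b4, b5⟩ := (h x u).resolve_left a5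
  obtain ⟨c1, c2, c3, c4, c5⟩ := (h u' y).resolve_left a6
  simp only at *
  refine Or.inr ⟨b1.append c1 fun w d e => by have := b2 w d; have := c2 w e; omega,
    fun w hw => ?_, List.mem_append_left _ b3, List.mem_append_right _ c4, fun j hj h3 => ?_⟩
  · rcases List.mem_append.1 hw with d | d
    · have := b2 w d; omega
    · have := c2 w d; omega
  by_cases d1 : j.2.1 ≤ T.getD u 0
  · obtain ⟨v, e1, v', e2, e3, e4, e5⟩ := b5 j hj ⟨h3.1, d1⟩
    refine ⟨v, List.mem_append_left _ e1, v', List.mem_append_left _ e2, e3, fun w hw => ?_, e5⟩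
    rcases List.mem_append.1 hw with d | d
    · exact e4 w d
    · have := c2 w d; have := b2 v' e2; simp only; omega
  by_cases d2 : T.getD u' 0 ≤ j.1 + j.2.2
  · obtain ⟨v, e1, v', e2, e3, e4, e5⟩ := c5 j hj ⟨d2, h3.2⟩
    refine ⟨v, List.mem_append_right _ e1, v', List.mem_append_right _ e2, e3, fun w hw => ?_, e5⟩
    rcases List.mem_append.1 hw with d | d
    · have := b2 w d; have := c2 v e1; simp only; omega
    · exact e4 w d
  refine ⟨u, List.mem_append_left _ b4, u', List.mem_append_right _ c3, a2, fun w hw => ?_,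
    not_le.1 d1, not_le.1 d2, a4 j hj h3⟩
  exact (List.mem_append.1 hw).imp (fun d => (b2 w d).2) fun d => (c2 w d).1

lemma sound (k x y : ℕ) : get ((step T J)^[k] []) x y = [] ∨ Good T J x y (get ((step T J)^[k] []) x y) := by
  induction k generalizing x y with
  | zero => simp [get]
  | succ k ih =>
    rw [Function.iterate_succ_apply', get_step]
    split_ifs
    · exact cell_ok ih x y
    · exact Or.inl rfl

lemma complete (hT : ∀ x y, x < y → y < T.length → T.getD x 0 < T.getD y 0) (k : ℕ) :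
    ∀ x y V, y < T.length → y < x + k → Good T J x y V →
      V.length ≤ (get ((step T J)^[k] []) x y).length := by
  have le : ∀ x y, x ≤ y → y < T.length → T.getD x 0 ≤ T.getD y 0 := fun x y h h' => by
    rcases h.lt_or_eq with h | rfl
    · exact (hT x y h h').le
    · rfl
  induction k with
  | zero => intro x y V _ h ⟨_, h1, h2, _⟩; have := h1 x h2; omega
  | succ k ih =>
    intro x y V hy hk ⟨h1, h2, h3, h4, h5⟩
    have hxy := (h2 x h3).2
    rw [Function.iterate_succ_apply', get_step, if_pos ⟨by omega, hy⟩]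
    rcases hxy.lt_or_eq with hxy | rfl
    · classical
      obtain ⟨z, z1, z2⟩ := (V.toFinset.filter (x < ·)).exists_min_image id ⟨y, by simp [h4, hxy]⟩
      simp only [Finset.mem_filter, List.mem_toFinset, id, and_imp] at z1 z2
      obtain ⟨⟨u, u'⟩, a1, a2⟩ := ((V.toFinset ×ˢ V.toFinset).filter fun u =>
        u.1 < u.2 ∧ ∀ w ∈ V, w ≤ u.1 ∨ u.2 ≤ w).exists_max_image
        (fun u => T.getD u.2 0 - T.getD u.1 0) ⟨(x, z), by
          simp only [Finset.mem_filter, Finset.mem_product, List.mem_toFinset]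
          exact ⟨⟨h3, z1.1⟩, z1.2, fun w hw => (le_or_gt w x).imp_right (z2 w hw)⟩⟩
      simp only [Finset.mem_filter, Finset.mem_product, List.mem_toFinset, and_imp, Prod.forall] at a1 a2
      obtain ⟨⟨a3, a4⟩, a5, a6⟩ := a1
      have b1 := h2 u a3
      have b2 := h2 u' a4
      have g1 : Good T J x u (V.filter (· ≤ u)) := by
        refine ⟨h1.filter _, by simpa using fun w a b => ⟨(h2 w a).1, b⟩, by simp [h3, b1.1],
          by simp [a3], fun j hj h => ?_⟩
        obtain ⟨v, e1, v', e2, e3, e4, e5⟩ := h5 j hj ⟨h.1, h.2.trans (le _ _ b1.2 hy)⟩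
        have : v < u := lt_of_not_ge fun c =>
          absurd (e5.1.trans_le h.2) (not_lt.2 (le _ _ c (by have := h2 v e1; omega)))
        have := e4 u a3
        simp only at this e3
        exact ⟨v, by simp [e1]; omega, v', by simp [e2]; omega, e3,
          fun w hw => e4 w (List.mem_of_mem_filter hw), e5⟩
      have g2 : Good T J u' y (V.filter fun w => !decide (w ≤ u)) := by
        refine ⟨h1.filter _, by simpa using fun w a b => ⟨by have := a6 w a; omega, (h2 w a).2⟩,
          by simp [a4, a5], by simp [h4]; omega, fun j hj h => ?_⟩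
        obtain ⟨v, e1, v', e2, e3, e4, e5⟩ := h5 j hj ⟨(le _ _ b2.1 (by omega)).trans h.1, h.2⟩
        have : u' < v' := lt_of_not_ge fun c =>
          absurd (h.1.trans_lt e5.2.1) (not_lt.2 (le _ _ c (by omega)))
        have := e4 u' a4
        simp only at this e3
        exact ⟨v, by simp [e1]; omega, v', by simp [e2]; omega, e3,
          fun w hw => e4 w (List.mem_of_mem_filter hw), e5⟩
      have i1 := ih x u _ (by omega) (by omega) g1
      have i2 := ih u' y _ hy (by omega) g2
      have l1 := List.length_pos_of_mem g1.2.2.1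
      have l2 := List.length_pos_of_mem g2.2.2.1
      refine le_trans ?_ (le_best (List.mem_cons_of_mem _ (List.mem_map.2 ⟨(u, u'),
        by simp; omega, rfl⟩)))
      have s : ∀ j ∈ J, InJ T x y j → T.getD u 0 + j.2.2 < T.getD u' 0 := fun j hj h => by
        obtain ⟨v, e1, v', e2, e3, e4, e5⟩ := h5 j hj h
        have := a2 v v' e1 e2 e3 e4
        have := e5.2.2
        simp only at *
        linarith
      rw [cand, if_pos ⟨b1.1, a5, b2.2, s, List.ne_nil_of_length_pos (by simp only; omega),
        List.ne_nil_of_length_pos (by simp only; omega)⟩, List.length_append,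
        List.length_eq_length_filter_add (fun w => decide (w ≤ u)) (l := V)]
      exact add_le_add i1 i2
    · refine le_trans ?_ (le_best List.mem_cons_self)
      have s : ∀ j ∈ J, ¬ InJ T x x j := fun j hj h => by
        obtain ⟨v, e1, v', e2, e3, -⟩ := h5 j hj h
        have := h2 v e1; have := h2 v' e2
        simp only at e3; omega
      rw [if_pos ⟨rfl, s⟩]
      exact h1.length_le_of_subset (l₂ := [x]) fun w hw => by have := h2 w hw; simp; omega

def keep (T : List ℚ) (J : List Job) : List ℕ := get ((step T J)^[T.length] []) 0 (T.length - 1)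

def pick (T : List ℚ) (V : List ℕ) (j : Job) : ℕ × ℕ :=
  ((V ×ˢ V).find? fun u => Gap T V j u).getD (0, 0)

def start (T : List ℚ) (V : List ℕ) (j : Job) : ℚ :=
  max j.1 ((T.getD (pick T V j).1 0 + min j.2.1 (T.getD (pick T V j).2 0 - j.2.2)) / 2)

theorem opt (hT : ∀ x y, x < y → y < T.length → T.getD x 0 < T.getD y 0) (h0 : 1 < T.length)
    (hJ : ∀ j ∈ J, j.1 ≤ j.2.1 ∧ 0 ≤ j.2.2 ∧ T.getD 0 0 < j.1 ∧ j.2.1 + j.2.2 < T.getD (T.length - 1) 0) :
    (∀ j ∈ J, j.1 ≤ start T (keep T J) j ∧ start T (keep T J) j ≤ j.2.1) ∧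
    ∀ C C' : Set ℕ, (∀ w ∈ C, w < T.length ∧
        ∃ j ∈ J, start T (keep T J) j ≤ T.getD w 0 ∧ T.getD w 0 ≤ start T (keep T J) j + j.2.2) →
      (∀ w ∈ C', 0 < w ∧ w + 1 < T.length) →
      (∀ j ∈ J, ∃ s : ℝ, j.1 ≤ s ∧ s ≤ j.2.1 ∧
        ∀ w < T.length, s ≤ T.getD w 0 → T.getD w 0 ≤ s + j.2.2 → w ∈ C') → C.ncard ≤ C'.ncard := by
  classical
  have le : ∀ x y, x ≤ y → y < T.length → T.getD x 0 ≤ T.getD y 0 := fun x y h h' => by
    rcases h.lt_or_eq with h | rfl
    · exact (hT x y h h').le
    · rfl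
  have cp := fun V => complete (J := J) hT T.length 0 (T.length - 1) V (by omega) (by omega)
  have g : Good T J 0 (T.length - 1) (keep T J) := (sound _ _ _).resolve_left fun h => by
    have := cp [0, T.length - 1] ⟨by simp; omega, by simp, by simp, by simp, fun j hj _ =>
      ⟨0, by simp, T.length - 1, by simp, by simp only; omega, by simp; omega, by
        obtain ⟨a, b, c, d⟩ := hJ j hj
        simp only
        exact ⟨by linarith, by linarith, by linarith⟩⟩⟩
    rw [h] at this; simp at this
  have p : ∀ j ∈ J, (pick T (keep T J) j).1 ∈ keep T J ∧ Gap T (keep T J) j (pick T (keep T J) j) :=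
    fun j hj => by
      obtain ⟨a, b, c, d⟩ := hJ j hj
      obtain ⟨u, e1, u', e2, e3⟩ := g.2.2.2.2 j hj ⟨by linarith, by linarith⟩
      unfold pick
      cases h : (keep T J ×ˢ keep T J).find? fun u => Gap T (keep T J) j u with
      | none => exact absurd (by simpa using e3) (List.find?_eq_none.1 h (u, u') (by simp [e1, e2]))
      | some v =>
        exact ⟨(List.mem_product.1 (List.mem_of_find?_eq_some h)).1, by simpa using List.find?_some h⟩
  have q : ∀ j ∈ J, (j.1 ≤ start T (keep T J) j ∧ start T (keep T J) j ≤ j.2.1) ∧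
      T.getD (pick T (keep T J) j).1 0 < start T (keep T J) j ∧
      start T (keep T J) j + j.2.2 < T.getD (pick T (keep T J) j).2 0 := fun j hj => by
    obtain ⟨a, b, c, d⟩ := hJ j hj
    obtain ⟨-, -, -, e1, e2, e3⟩ := p j hj
    unfold start
    generalize T.getD (pick T (keep T J) j).1 0 = A at *
    generalize T.getD (pick T (keep T J) j).2 0 = B at *
    have m1 := min_le_left j.2.1 (B - j.2.2)
    have m2 := min_le_right j.2.1 (B - j.2.2)
    have m3 : A < min j.2.1 (B - j.2.2) := lt_min e1 (by linarith)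
    exact ⟨⟨le_max_left _ _, max_le a (by linarith)⟩, lt_max_of_lt_right (by linarith),
      lt_sub_iff_add_lt.1 (max_lt (by linarith) (by linarith))⟩
  refine ⟨fun j hj => (q j hj).1, fun C C' h1 h2 h3 => ?_⟩
  have c1 : C ⊆ ↑(Finset.range T.length \ (keep T J).toFinset) := fun w hw => by
    obtain ⟨a, j, hj, b, c⟩ := h1 w hw
    simp only [Finset.coe_sdiff, Finset.coe_range, List.coe_toFinset, Set.mem_sdiff, Set.mem_Iio,
      Set.mem_ofPred_eq]
    refine ⟨a, fun h => ?_⟩
    obtain ⟨-, d, e⟩ := q j hj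
    rcases (p j hj).2.2.1 w h with f | f
    · have := le _ _ f (by have := g.2.1 _ (p j hj).1; omega); linarith
    · have := le _ _ f a; linarith
  have c2 := cp ((List.range T.length).filter (· ∉ C')) ⟨List.nodup_range.filter _,
    by simp; omega, by simpa using ⟨by omega, fun h => by have := h2 _ h; omega⟩,
    by simpa using ⟨by omega, fun h => by have := h2 _ h; omega⟩, fun j hj _ => by
      obtain ⟨s, a, b, c⟩ := h3 j hj
      obtain ⟨d1, d2, d3, d4⟩ := hJ j hj
      have d5 : (T.getD 0 0 : ℝ) < s := lt_of_lt_of_le (by exact_mod_cast d3) a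
      have d6 : s + j.2.2 < (T.getD (T.length - 1) 0 : ℝ) :=
        lt_of_le_of_lt (by linarith) (show (j.2.1 : ℝ) + j.2.2 < _ by exact_mod_cast d4)
      have d7 : (0 : ℝ) ≤ j.2.2 := by exact_mod_cast d2
      obtain ⟨u, u1, u2⟩ := ((Finset.range T.length).filter fun w => w ∉ C' ∧ (T.getD w 0 : ℝ) < s).exists_max_image
        id ⟨0, by simpa using ⟨by omega, fun h => by have := h2 _ h; omega, d5⟩⟩
      obtain ⟨v, v1, v2⟩ := ((Finset.range T.length).filter fun w => w ∉ C' ∧
        s + j.2.2 < (T.getD w 0 : ℝ)).exists_min_image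
        id ⟨T.length - 1, by simpa using ⟨by omega, fun h => by have := h2 _ h; omega, d6⟩⟩
      simp only [Finset.mem_filter, Finset.mem_range, id, and_imp] at u1 u2 v1 v2
      refine ⟨u, by simpa using ⟨u1.1, u1.2.1⟩, v, by simpa using ⟨v1.1, v1.2.1⟩,
        lt_of_not_ge fun h => ?_, fun w hw => ?_, ?_, ?_, ?_⟩
      · have : (T.getD v 0 : ℝ) ≤ T.getD u 0 := by exact_mod_cast le _ _ h u1.1
        linarith [u1.2.2, v1.2.2]
      · simp only [List.mem_filter, List.mem_range, decide_eq_true_eq] at hw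
        by_contra h
        push Not at h
        exact hw.2 (c w hw.1 (not_lt.1 fun k => absurd (u2 w hw.1 hw.2 k) (not_le.2 h.1))
          (not_lt.1 fun k => absurd (v2 w hw.1 hw.2 k) (not_le.2 h.2)))
      · exact_mod_cast u1.2.2.trans_le b
      · exact_mod_cast (show (j.1 : ℝ) + j.2.2 < T.getD v 0 by linarith [v1.2.2])
      · exact_mod_cast (show (T.getD u 0 : ℝ) + j.2.2 < T.getD v 0 by linarith [u1.2.2, v1.2.2])⟩
  have c3 := Set.ncard_le_ncard c1 (Finset.finite_toSet _)
  rw [Set.ncard_coe_finset, Finset.card_sdiff_of_subset (fun w hw => by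
    have := g.2.1 w (by simpa using hw); simp; omega), List.toFinset_card_of_nodup g.1,
    Finset.card_range] at c3
  have c4 : C' = ↑((List.range T.length).filter fun w => !decide (w ∉ C')).toFinset := by
    ext w; simpa using fun h => by have := h2 w h; omega
  have c5 := List.length_eq_length_filter_add (fun w => decide (w ∉ C')) (l := List.range T.length)
  rw [c4, Set.ncard_coe_finset, List.toFinset_card_of_nodup (List.nodup_range.filter _)]
  rw [List.length_range] at c5
  unfold keep at c3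
  omega

end Pool.Agent.H.MP_2ca8f5_lc
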