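import Pool.Agent.H.MP_2ca8f5_lc.A

set_option autoImplicit false

namespace Pool.Agent.H.MP_2ca8f5_lc
open Pool.Agent.Lib.CX Pool.Agent.Lib.helper29.CXQ

variable {α : Type} [Enc α] {T : α → List ℚ} {J : α → List Job} {x y : α → ℕ} {j : α → Job}
  {V : α → List ℕ} {u : α → ℕ × ℕ} {t : α → List (List (List ℕ))}

@[fun_prop] lemma pt_InJ {k : ∀ a, Decidable (InJ (T a) (x a) (y a) (j a))} (hT : PT T) (hx : PT x)
    (hy : PT y) (hj : PT j) : PT fun a => @decide _ (k a) :=
  PT.congr (g := fun a => decide ((T a).getD (x a) 0 ≤ (j a).1 + (j a).2.2 ∧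
    (j a).2.1 ≤ (T a).getD (y a) 0)) (by fun_prop) fun a => by simp [InJ]

@[fun_prop] lemma pt_Gap {k : ∀ a, Decidable (Gap (T a) (V a) (j a) (u a))} (hT : PT T) (hV : PT V)
    (hj : PT j) (hu : PT u) : PT fun a => @decide (Gap (T a) (V a) (j a) (u a)) (k a) := by
  have h1 : PT fun a => decide ((u a).1 < (u a).2) := by fun_prop
  have h2 : PT fun a => decide (∀ w ∈ V a, w ≤ (u a).1 ∨ (u a).2 ≤ w) := by fun_prop
  have h3 : PT fun a => decide ((T a).getD (u a).1 0 < (j a).2.1) := by fun_prop
  have h4 : PT fun a => decide ((j a).1 + (j a).2.2 < (T a).getD (u a).2 0) := by fun_prop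
  have h5 : PT fun a => decide ((T a).getD (u a).1 0 + (j a).2.2 < (T a).getD (u a).2 0) := by fun_prop
  exact (h1.and (h2.and (h3.and (h4.and h5)))).congr fun a => by
    rw [Bool.eq_iff_iff]; simp only [Gap, Bool.and_eq_true, decide_eq_true_eq]

@[fun_prop] lemma pt_best {l : α → List (List ℕ)} (hl : PT l) : PT fun a => best (l a) := by
  unfold best; fun_prop

@[fun_prop] lemma pt_get (ht : PT t) (hx : PT x) (hy : PT y) : PT fun a => get (t a) (x a) (y a) := by
  unfold get; fun_prop

attribute [local irreducible] InJ Gap best get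

@[fun_prop] lemma pt_cand (hT : PT T) (hJ : PT J) (ht : PT t) (hx : PT x) (hy : PT y) (hu : PT u) :
    PT fun a => cand (T a) (J a) (t a) (x a) (y a) (u a) := by
  unfold cand; fun_prop

attribute [local irreducible] cand

@[fun_prop] lemma pt_cell (hT : PT T) (hJ : PT J) (ht : PT t) (hx : PT x) (hy : PT y) :
    PT fun a => cell (T a) (J a) (t a) (x a) (y a) := by
  unfold cell; fun_prop

attribute [local irreducible] cell

@[fun_prop] lemma pt_step (hT : PT T) (hJ : PT J) (ht : PT t) : PT fun a => step (T a) (J a) (t a) := by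
  unfold step; fun_prop

lemma size_iter (T : List ℚ) (J : List Job) (k : ℕ) : size ((step T J)^[k] []) ≤
    T.length * (T.length * (T.length * (3 * T.length + 3) + 3) + 3) + 2 := by
  cases k with
  | zero => simp
  | succ k =>
    rw [Function.iterate_succ_apply']
    refine (size_list_le (B := T.length * (T.length * (3 * T.length + 3) + 3) + 2) fun r hr => ?_).trans
      (by simp [step])
    obtain ⟨x, -, rfl⟩ := List.mem_map.1 hr
    refine (size_list_le (B := T.length * (3 * T.length + 3) + 2) fun c hc => ?_).trans (by simp)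
    obtain ⟨y, hy, rfl⟩ := List.mem_map.1 hc
    rw [List.mem_range] at hy
    rcases cell_ok (sound (T := T) (J := J) k) x y with h | h
    · simp [h]
    · refine (size_list_le (B := 3 * T.length + 2) fun w hw => ?_).trans ?_
      · have := h.2.1 w hw
        have := size_nat_le w
        omega
      · have := h.1.length_le_of_subset (l₂ := List.range T.length) fun w hw => by
          have := h.2.1 w hw
          simp; omega
        rw [List.length_range] at this
        gcongr

@[fun_prop] lemma pt_keep (hT : PT T) (hJ : PT J) : PT fun a => keep (T a) (J a) :=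
  pt_get (PT.iterate (F := fun a => step (T a) (J a)) (by fun_prop) (PT.const _) (by fun_prop) (by fun_prop)
    (by fun_prop) fun a k _ => size_iter (T a) (J a) k) (PT.const _) (by fun_prop)

@[fun_prop] lemma pt_start (hT : PT T) (hV : PT V) (hj : PT j) : PT fun a => start (T a) (V a) (j a) := by
  have : PT fun a => pick (T a) (V a) (j a) := by unfold pick; fun_prop
  unfold start; fun_prop

end Pool.Agent.H.MP_2ca8f5_lc
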