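import Pool.Agent.H.MP_2ca8f5_lc.B

set_option autoImplicit false

namespace Pool.Agent.H.MP_2ca8f5_lc
open Pool.Agent.Lib.CX Pool.Agent.Lib.helper29.CXQ

lemma meet_iff {L δ t s p a b : ℝ} (hL : 0 < L) (hδ : 0 < δ) (hp : 0 ≤ p) (ha : 0 ≤ a) (hab : a ≤ b)
    (hb : b ≤ L) : (segment ℝ (t, (0 : ℝ)) (t + δ, L) ∩ Set.Icc s (s + p) ×ˢ Set.Icc a b).Nonempty ↔
      s - δ * b / L ≤ t ∧ t ≤ s - δ * b / L + (p + δ * (b - a) / L) := by
  have e : s - δ * b / L + (p + δ * (b - a) / L) = s + p - δ * (a / L) := by ring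
  rw [segment_eq_image', e, mul_div_assoc]
  constructor
  · rintro ⟨_, ⟨θ, -, rfl⟩, ⟨h1, h2⟩, h3, h4⟩
    simp only [Prod.fst_add, Prod.snd_add, Prod.smul_fst, Prod.smul_snd, Prod.fst_sub, Prod.snd_sub,
      smul_eq_mul, add_sub_cancel_left, sub_zero, zero_add] at h1 h2 h3 h4
    have := mul_le_mul_of_nonneg_left ((le_div_iff₀ hL).2 h4) hδ.le
    have := mul_le_mul_of_nonneg_left ((div_le_iff₀ hL).2 h3) hδ.le
    constructor <;> linarith
  · rintro ⟨h1, h2⟩
    have k1 : (s - t) / δ ≤ b / L := (div_le_iff₀ hδ).2 (by linarith)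
    have k2 : a / L ≤ b / L := by gcongr
    have k3 := max_le k2 k1
    have k4 := le_max_left (a / L) ((s - t) / δ)
    have k5 := (div_le_iff₀ hδ).1 (le_max_right (a / L) ((s - t) / δ))
    have k6 : max (a / L) ((s - t) / δ) ≤ (s + p - t) / δ :=
      max_le ((le_div_iff₀ hδ).2 (by linarith)) (by gcongr; linarith)
    refine ⟨_, ⟨max (a / L) ((s - t) / δ), ⟨le_trans (by positivity) k4,
      k3.trans ((div_le_one hL).2 hb)⟩, rfl⟩, ?_⟩
    simp only [Set.mem_prod, Set.mem_Icc, Prod.fst_add, Prod.snd_add, Prod.smul_fst, Prod.smul_snd,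
      Prod.fst_sub, Prod.snd_sub, smul_eq_mul, add_sub_cancel_left, sub_zero, zero_add]
    have := (le_div_iff₀ hδ).1 k6
    exact ⟨⟨by linarith, by linarith⟩, (div_le_iff₀ hL).1 k4, (le_div_iff₀ hL).1 k3⟩

def hi (l : List ℚ) : ℚ := ((l.map fun q => q.num.natAbs).sum + 1 : ℕ)

lemma lt_hi {l : List ℚ} {q : ℚ} (h : q ∈ l) : q < hi l := by
  have h1 : q.num.natAbs ≤ (l.map fun q => q.num.natAbs).sum :=
    List.single_le_sum (by simp) _ (List.mem_map_of_mem h)
  have h2 : q ≤ (q.num.natAbs : ℚ) := by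
    conv_lhs => rw [← q.num_div_den]
    rw [Nat.cast_natAbs, Int.cast_abs]
    exact (div_le_div_of_nonneg_right (le_abs_self _) (by positivity)).trans
      (div_le_self (abs_nonneg _) (by exact_mod_cast q.pos))
  exact h2.trans_lt (by unfold hi; exact_mod_cast Nat.lt_succ_of_le h1)

lemma hi_pos (l : List ℚ) : 0 < hi l := by unfold hi; positivity

@[fun_prop] lemma pt_hi {α : Type} [Enc α] {l : α → List ℚ} (hl : PT l) : PT fun a => hi (l a) := by
  unfold hi; fun_prop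

lemma mono {T : List ℚ} (h : T.Pairwise (· < ·)) (x y : ℕ) (h1 : x < y) (h2 : y < T.length) :
    T.getD x 0 < T.getD y 0 := by
  rw [List.getD_eq_getElem _ _ h2, List.getD_eq_getElem _ _ (h1.trans h2)]
  exact List.pairwise_iff_getElem.1 h x y _ _ h1

lemma mem_mid {a b : ℚ} {l : List ℚ} {w : ℕ} (h1 : 0 < w) (h2 : w + 1 < (a :: (l ++ [b])).length) :
    (a :: (l ++ [b])).getD w 0 ∈ l := by
  obtain ⟨w, rfl⟩ := Nat.exists_eq_add_one_of_ne_zero h1.ne'
  have : w < l.length := by simpa using h2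
  simp [List.getElem?_append_left this, this]

lemma ncard_idx {a b : ℚ} {l : List ℚ} (h : (a :: (l ++ [b])).Pairwise (· < ·)) {S : Set ℚ}
    (hS : ∀ t ∈ S, t ∈ l) : {w | (0 < w ∧ w + 1 < (a :: (l ++ [b])).length) ∧
      (a :: (l ++ [b])).getD w 0 ∈ S}.ncard = S.ncard := by
  refine Set.ncard_congr (fun w _ => (a :: (l ++ [b])).getD w 0) (fun w hw => hw.2)
    (fun x y hx hy e => ?_) fun t ht => ?_
  · rcases lt_trichotomy x y with c | c | c
    · exact absurd e (mono h x y c (by have := hy.1.2; omega)).ne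
    · exact c
    · exact absurd e (mono h y x c (by have := hx.1.2; omega)).ne'
  · obtain ⟨w, hw, rfl⟩ := List.getElem_of_mem (hS t ht)
    have e : (a :: (l ++ [b])).getD (w + 1) 0 = l[w] := by simp [List.getElem?_append_left hw, hw]
    exact ⟨w + 1, ⟨⟨by omega, by simpa using hw⟩, e ▸ ht⟩, e⟩

end Pool.Agent.H.MP_2ca8f5_lc
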